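import Pool.Agent.Q267.AP.Stm
import Pool.Agent.Q267.ST.Scale

/-!
# The basic identity between the periods and the Hasse-Witt matrix
-/

set_option autoImplicit false

open Finset

namespace Pool.Agent.Q174.AP

open Pool.Agent.Q267.AP
open Pool.Agent.Q267.ST
open Pool.Agent.Q267.DC (hm)

section functional

variable {ι A B : Type} [CommRing A] [CommRing B]

/-- A semilinear functional on polynomials. -/
noncomputable def Lf (d : (ι →₀ ℕ) → B) (τ : A →+* B) (P : MvPolynomial ι A) : B :=
  ∑ u ∈ P.support, d u * τ (MvPolynomial.coeff u P)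

lemma Lf_eq (d : (ι →₀ ℕ) → B) (τ : A →+* B) (P : MvPolynomial ι A) (s : Finset (ι →₀ ℕ))
    (hs : P.support ⊆ s) : Lf d τ P = ∑ u ∈ s, d u * τ (MvPolynomial.coeff u P) := by
  unfold Lf
  refine sum_subset hs fun u _ hu => ?_
  rw [MvPolynomial.notMem_support_iff.mp hu, map_zero, mul_zero]

lemma Lf_add (d : (ι →₀ ℕ) → B) (τ : A →+* B) (P Q : MvPolynomial ι A) :
    Lf d τ (P + Q) = Lf d τ P + Lf d τ Q := by
  classical
  rw [Lf_eq d τ (P + Q) (P.support ∪ Q.support) MvPolynomial.support_add,
    Lf_eq d τ P _ subset_union_left, Lf_eq d τ Q _ subset_union_right, ← sum_add_distrib]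
  refine sum_congr rfl fun u _ => ?_
  rw [MvPolynomial.coeff_add, map_add, mul_add]

lemma Lf_zero (d : (ι →₀ ℕ) → B) (τ : A →+* B) : Lf d τ (0 : MvPolynomial ι A) = 0 := by
  simp [Lf]

lemma Lf_sum {β : Type} (d : (ι →₀ ℕ) → B) (τ : A →+* B) (s : Finset β)
    (P : β → MvPolynomial ι A) : Lf d τ (∑ b ∈ s, P b) = ∑ b ∈ s, Lf d τ (P b) := by
  classical
  induction s using Finset.induction_on with
  | empty => rw [sum_empty, sum_empty, Lf_zero]
  | insert a s ha ih => rw [sum_insert ha, sum_insert ha, Lf_add, ih]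

lemma Lf_C_mul (d : (ι →₀ ℕ) → B) (τ : A →+* B) (c : A) (P : MvPolynomial ι A) :
    Lf d τ (MvPolynomial.C c * P) = τ c * Lf d τ P := by
  rw [Lf_eq d τ (MvPolynomial.C c * P) P.support ?_]
  · unfold Lf
    rw [mul_sum]
    refine sum_congr rfl fun u _ => ?_
    rw [MvPolynomial.coeff_C_mul, map_mul]
    ring
  · intro u hu
    rw [MvPolynomial.mem_support_iff] at hu ⊢
    intro h
    rw [MvPolynomial.coeff_C_mul, h, mul_zero] at hu
    exact hu rfl

lemma Lf_monomial (d : (ι →₀ ℕ) → B) (τ : A →+* B) (u : ι →₀ ℕ) (c : A) :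
    Lf d τ (MvPolynomial.monomial u c) = d u * τ c := by
  classical
  rw [Lf_eq d τ _ {u} MvPolynomial.support_monomial_subset, sum_singleton,
    MvPolynomial.coeff_monomial, if_pos rfl]

end functional

section scal

variable {ι A : Type} [Fintype ι] [CommRing A]

lemma scal_monomial (ω : ι → ℕ) (γ : A) (N : ℕ) (v : ι →₀ ℕ) (b : Polynomial A) :
    scal ω γ N (MvPolynomial.monomial v b) = MvPolynomial.monomial v
      (Polynomial.X ^ (∑ i, ω i * v i) * b.comp (Polynomial.C γ * Polynomial.X ^ N)) := by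
  unfold scal
  rw [MvPolynomial.coe_eval₂Hom, MvPolynomial.eval₂_monomial, MvPolynomial.monomial_eq,
    Finsupp.prod_fintype _ _ (by simp), Finsupp.prod_fintype _ _ (by simp)]
  simp only [mul_pow, prod_mul_distrib, ← map_pow, ← pow_mul]
  rw [← map_prod, prod_pow_eq_pow_sum, mul_comm (Polynomial.X ^ _) (b.comp _), map_mul, mul_assoc]
  rfl

lemma coeff_scal (ω : ι → ℕ) (γ : A) (N : ℕ) (v : ι →₀ ℕ) (P : MvPolynomial ι (Polynomial A)) :
    MvPolynomial.coeff v (scal ω γ N P) = Polynomial.X ^ (∑ i, ω i * v i) *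
      (MvPolynomial.coeff v P).comp (Polynomial.C γ * Polynomial.X ^ N) := by
  classical
  conv_lhs => rw [P.as_sum]
  rw [map_sum, MvPolynomial.coeff_sum]
  have h1 : ∀ x ∈ P.support,
      MvPolynomial.coeff v (scal ω γ N (MvPolynomial.monomial x (MvPolynomial.coeff x P))) =
      if x = v then Polynomial.X ^ (∑ i, ω i * v i) *
      (MvPolynomial.coeff v P).comp (Polynomial.C γ * Polynomial.X ^ N) else 0 := by
    intro x _
    rw [scal_monomial, MvPolynomial.coeff_monomial]
    by_cases h : x = v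
    · subst h
      rfl
    · rw [if_neg h, if_neg h]
  rw [sum_congr rfl h1, sum_ite_eq']
  by_cases hv : v ∈ P.support
  · rw [if_pos hv]
  · rw [if_neg hv, MvPolynomial.notMem_support_iff.mp hv, Polynomial.zero_comp, mul_zero]

lemma scal_map_C (ω : ι → ℕ) (γ γ' : A) (N N' : ℕ) (P : MvPolynomial ι A) :
    scal ω γ N (MvPolynomial.map Polynomial.C P) = scal ω γ' N' (MvPolynomial.map Polynomial.C P) := by
  ext1 v
  rw [coeff_scal, coeff_scal, MvPolynomial.coeff_map, Polynomial.C_comp, Polynomial.C_comp]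

end scal

section lin

variable {ι R S : Type} [Fintype ι] [CommRing R] [CommRing S]

lemma lin_C (M : Matrix ι ι R) (c : R) : lin M (MvPolynomial.C c) = MvPolynomial.C c := by
  simp [lin]

lemma map_lin (φ : R →+* S) (M : Matrix ι ι R) (P : MvPolynomial ι R) :
    MvPolynomial.map φ (lin M P) = lin (M.map φ) (MvPolynomial.map φ P) := by
  have h : (MvPolynomial.map φ).comp (lin M) = (lin (M.map φ)).comp (MvPolynomial.map φ) := by
    refine MvPolynomial.ringHom_ext (fun r => ?_) fun i => ?_
    · simp [lin]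
    · simp [lin]
  exact congrArg (fun ψ => ψ P) h

end lin

section main

variable {ι k : Type} [Fintype ι] [DecidableEq ι] [Field k]

/-- The substitution on the coefficients. -/
noncomputable def tau (γ : k) (N : ℕ) : Polynomial k →+* PowerSeries k :=
  (Polynomial.coeToPowerSeries.ringHom (R := k)).comp
    (Polynomial.eval₂RingHom Polynomial.C (Polynomial.C γ * Polynomial.X ^ N))

omit [Fintype ι] [DecidableEq ι] in
lemma tau_apply (γ : k) (N : ℕ) (c : Polynomial k) :
    tau γ N c = ((c.comp (Polynomial.C γ * Polynomial.X ^ N) : Polynomial k) : PowerSeries k) :=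
  rfl

/-- Coefficient of a product with the scaled polynomial. -/
lemma cx_scal (hC : S_CxMul) (ω : ι → ℕ) (γ : k) (N : ℕ) (Ψ : PowerSeries (LP ι k))
    (H : MvPolynomial ι (Polynomial k)) :
    cx (fun _ => -1) (toL (scal ω γ N H) * Ψ) =
      Lf (fun v => cx ((fun _ => -1) - zexp v) Ψ * PowerSeries.X ^ (∑ i, ω i * v i))
        (tau γ N) H := by
  rw [mul_comm, hC]
  unfold Lf
  refine (sum_subset ?_ ?_).trans (sum_congr rfl fun v _ => ?_)
  · intro v hv
    rw [MvPolynomial.mem_support_iff] at hv ⊢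
    intro h
    rw [coeff_scal, h, Polynomial.zero_comp, mul_zero] at hv
    exact hv rfl
  · intro v _ hv
    rw [MvPolynomial.notMem_support_iff.mp hv, Polynomial.coe_zero, mul_zero]
  · rw [coeff_scal, Polynomial.coe_mul, Polynomial.coe_pow, Polynomial.coe_X, tau_apply, mul_assoc]

lemma chart_monomial (ω : ι → ℕ) (γ : k) (N : ℕ) (M : Matrix ι ι k) (v : ι →₀ ℕ) :
    chart ω γ N M (MvPolynomial.monomial v 1) =
      toL (scal ω γ N (MvPolynomial.map Polynomial.C (lin M (MvPolynomial.monomial v 1)))) := by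
  rw [map_lin, MvPolynomial.map_monomial, RingHom.map_one]
  rfl

lemma chart_indep (ω : ι → ℕ) (γ γ' : k) (N N' : ℕ) (M : Matrix ι ι k) (v : ι →₀ ℕ) :
    chart ω γ N M (MvPolynomial.monomial v 1) = chart ω γ' N' M (MvPolynomial.monomial v 1) := by
  rw [chart_monomial, chart_monomial, scal_map_C ω γ γ' N N']

lemma per_eq (hC : S_CxMul) (ω : ι → ℕ) (M : Matrix ι ι k) (Ψ : PowerSeries (LP ι k))
    (w : ι →₀ ℕ) : per ω M Ψ w =
      ∑ v ∈ (lin M (MvPolynomial.monomial (w - one ι) 1)).support,
        cx ((fun _ => -1) - zexp v) Ψ * PowerSeries.X ^ (∑ i, ω i * v i) *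
          PowerSeries.C (MvPolynomial.coeff v (lin M (MvPolynomial.monomial (w - one ι) 1))) := by
  unfold per
  rw [chart_monomial, cx_scal hC, Lf_eq _ _ _ _ (MvPolynomial.support_map_subset _ _)]
  refine sum_congr rfl fun v _ => ?_
  rw [MvPolynomial.coeff_map, tau_apply, Polynomial.C_comp, Polynomial.coe_C]

omit [Fintype ι] [DecidableEq ι] in
lemma cx_X_pow_mul (u : ι → ℤ) (n : ℕ) (F : PowerSeries (LP ι k)) :
    cx u (PowerSeries.X ^ n * F) = PowerSeries.X ^ n * cx u F := by
  have h : (PowerSeries.X ^ n : PowerSeries (LP ι k)) = cst (PowerSeries.X ^ n) := by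
    unfold cst
    rw [map_pow, PowerSeries.map_X]
  rw [h, cx_cst_mul]

/-- Claim 1. -/
lemma claim1 (hF : S_FrobG) (hC : S_CxMul) (p : ℕ) [Fact p.Prime] [CharP k p] (hp : p ≠ 0)
    (ω : ι → ℕ) (γ : k) (N : ℕ) (Ψ : PowerSeries (LP ι k)) (H : MvPolynomial ι (Polynomial k)) :
    cx (fun _ => -1) (toL (scal ω γ N H) * Ψ ^ p) =
      PowerSeries.X ^ ((p - 1) * ∑ i, ω i) *
        Lf (fun u => PowerSeries.expand p hp (PowerSeries.map (frobenius k p)
            (cx ((fun _ => -1) - zexp u) Ψ)) * PowerSeries.X ^ (p * ∑ i, ω i * u i))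
          (tau γ N) (U p H) := by
  classical
  have hp1 : 1 ≤ p := Nat.pos_of_ne_zero hp
  rw [cx_scal hC]
  unfold U
  rw [Lf_sum, mul_sum]
  unfold Lf
  rw [← sum_filter_add_sum_filter_not H.support (fun v => ∀ i, v i % p = p - 1)]
  rw [sum_eq_zero (s := H.support.filter fun v => ¬ ∀ i, v i % p = p - 1), add_zero]
  · refine sum_congr ?_ fun v hv => ?_
    · congr
    · have hv' := (mem_filter.mp hv).2
      change _ = _ * Lf _ _ _
      rw [Lf_monomial]
      have h1 : ((fun _ => -1) - zexp v : ι → ℤ) =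
          p • ((fun _ => -1) - zexp (v.mapRange (· / p) (Nat.zero_div p))) := by
        funext i
        have h2 := hv' i
        have h3 := Nat.div_add_mod (v i) p
        rw [h2] at h3
        have h4 : (v i : ℤ) = p * (v i / p : ℕ) + (p - 1) := by
          zify [hp1] at h3
          push_cast
          linarith
        simp only [Pi.sub_apply, Pi.smul_apply, zexp, Finsupp.mapRange_apply, nsmul_eq_mul]
        rw [h4]
        ring
      have h5 : ∑ i, ω i * v i = (p - 1) * ∑ i, ω i +
          p * ∑ i, ω i * (v.mapRange (· / p) (Nat.zero_div p)) i := by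
        rw [mul_sum, mul_sum, ← sum_add_distrib]
        refine sum_congr rfl fun i _ => ?_
        have h2 := hv' i
        have h3 := Nat.div_add_mod (v i) p
        rw [h2] at h3
        rw [Finsupp.mapRange_apply]
        conv_lhs => rw [← h3]
        ring
      change cx ((fun _ => -1) - zexp v) (Ψ ^ p) * PowerSeries.X ^ (∑ i, ω i * v i) *
        tau γ N (MvPolynomial.coeff v H) = _
      rw [h1, (hF ι k p hp Ψ).1, h5, pow_add]
      ring
  · intro v hv
    obtain ⟨h7, h8⟩ := mem_filter.mp hv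
    change cx ((fun _ => -1) - zexp v) (Ψ ^ p) * PowerSeries.X ^ (∑ i, ω i * v i) *
        tau γ N (MvPolynomial.coeff v H) = 0
    rw [(hF ι k p hp Ψ).2, zero_mul, zero_mul]
    intro u hu
    apply h8
    intro i
    have h9 := congrFun hu i
    simp only [Pi.sub_apply, Pi.smul_apply, zexp, nsmul_eq_mul] at h9
    have h10 : ((v i % p : ℕ) : ℤ) = ((p - 1 : ℕ) : ℤ) := by
      rw [Int.natCast_mod, Nat.cast_sub hp1]
      have h11 : (v i : ℤ) = (p : ℤ) - 1 + p * (-u i - 1) := by linarith
      rw [h11, Int.add_mul_emod_self_left]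
      have hp0 : (1 : ℤ) ≤ p := by exact_mod_cast hp1
      rw [Nat.cast_one, Int.emod_eq_of_lt (by linarith) (by linarith)]
    exact_mod_cast h10

/-- Claim 3. -/
lemma claim3 {J : Type} [Fintype J] [DecidableEq J] (p : ℕ) (hp : p ≠ 0) (w : J → ι →₀ ℕ)
    (hw : Function.Injective w) (hw1 : ∀ j i, 1 ≤ w j i) (e : ℕ)
    (f : MvPolynomial ι (Polynomial k)) (l : J)
    (hs : ∀ v ∈ (MvPolynomial.monomial (w l) 1 * f ^ e).support, (∃ v' : ι →₀ ℕ, v = p • v') →
      ∃ i, v = p • w i) :
    U p (MvPolynomial.monomial (w l - one ι) 1 * f ^ e) =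
      ∑ i, MvPolynomial.monomial (w i - one ι) (hm e p w f i l) := by
  classical
  have hp1 : 1 ≤ p := Nat.pos_of_ne_zero hp
  have hone : ∀ i, one ι i = 1 := fun i => by
    unfold one
    rw [Finsupp.equivFunOnFinite_symm_apply_apply]
  have hwl : one ι + (w l - one ι) = w l := by
    ext i
    rw [Finsupp.add_apply, Finsupp.tsub_apply, hone]
    have := hw1 l i
    omega
  have hF : ∀ v, MvPolynomial.coeff v (MvPolynomial.monomial (w l - one ι) 1 * f ^ e) =
      MvPolynomial.coeff (one ι + v) (MvPolynomial.monomial (w l) 1 * f ^ e) := by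
    intro v
    have h1 : MvPolynomial.monomial (w l) (1 : Polynomial k) =
        MvPolynomial.monomial (one ι) 1 * MvPolynomial.monomial (w l - one ι) 1 := by
      rw [MvPolynomial.monomial_mul, hwl, mul_one]
    rw [h1, mul_assoc, MvPolynomial.coeff_monomial_mul, one_mul]
  have hvi : ∀ i, one ι + (p • w i - one ι) = p • w i := by
    intro i
    ext a
    rw [Finsupp.add_apply, Finsupp.tsub_apply, hone, Finsupp.smul_apply, smul_eq_mul]
    have h1 := hw1 i a
    have h2 : 1 ≤ p * w i a := Nat.mul_pos hp1 h1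
    omega
  have hinj : Function.Injective fun i => p • w i - one ι := by
    intro i i' h
    apply hw
    have h1 : p • w i = p • w i' := by
      rw [← hvi i, ← hvi i']
      exact congrArg (fun v => one ι + v) h
    ext a
    have := DFunLike.congr_fun h1 a
    rw [Finsupp.smul_apply, Finsupp.smul_apply, smul_eq_mul, smul_eq_mul] at this
    exact Nat.eq_of_mul_eq_mul_left hp1 this
  have hterm : ∀ i, MvPolynomial.monomial (w i - one ι) (hm e p w f i l) =
      MvPolynomial.monomial ((p • w i - one ι).mapRange (· / p) (Nat.zero_div p))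
        (MvPolynomial.coeff (p • w i - one ι)
          (MvPolynomial.monomial (w l - one ι) 1 * f ^ e)) := by
    intro i
    have h0 : (p • w i - one ι).mapRange (· / p) (Nat.zero_div p) = w i - one ι := by
      ext a
      rw [Finsupp.mapRange_apply, Finsupp.tsub_apply, Finsupp.tsub_apply, hone,
        Finsupp.smul_apply, smul_eq_mul]
      have h1 := hw1 i a
      change (p * w i a - 1) / p = w i a - 1
      rw [Nat.div_eq_iff hp1]
      have h3 : (w i a - 1) * p = p * w i a - p := by
        rw [Nat.sub_mul, one_mul, mul_comm]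
      have h4 : p ≤ p * w i a := Nat.le_mul_of_pos_right p h1
      constructor
      · omega
      · omega
    rw [hF, hvi, h0]
    rfl
  rw [sum_congr rfl fun i _ => hterm i]
  rw [← sum_image (s := univ) (g := fun i => p • w i - one ι)
    (f := fun v => MvPolynomial.monomial (v.mapRange (· / p) (Nat.zero_div p))
        (MvPolynomial.coeff v (MvPolynomial.monomial (w l - one ι) 1 * f ^ e)))
    (fun i _ i' _ h => hinj h)]
  unfold U
  refine sum_subset ?_ ?_
  · intro v hv
    obtain ⟨h1, h2⟩ := mem_filter.mp hv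
    rw [MvPolynomial.mem_support_iff, hF] at h1
    obtain ⟨i, hi⟩ := hs (one ι + v) (MvPolynomial.mem_support_iff.mpr h1) (by
      refine ⟨one ι + v.mapRange (· / p) (Nat.zero_div p), ?_⟩
      ext a
      rw [Finsupp.smul_apply, Finsupp.add_apply, Finsupp.add_apply, hone, Finsupp.mapRange_apply,
        smul_eq_mul]
      have h3 := Nat.div_add_mod (v a) p
      rw [h2 a] at h3
      conv_lhs => rw [← h3]
      rw [mul_add, mul_one]
      omega)
    rw [mem_image]
    refine ⟨i, mem_univ _, ?_⟩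
    rw [← hi]
    ext a
    rw [Finsupp.tsub_apply, Finsupp.add_apply]
    omega
  · intro v hv hv'
    have h0 : MvPolynomial.coeff v (MvPolynomial.monomial (w l - one ι) 1 * f ^ e) = 0 := by
      by_contra hne
      apply hv'
      rw [mem_filter, MvPolynomial.mem_support_iff]
      refine ⟨hne, fun a => ?_⟩
      obtain ⟨i, _, rfl⟩ := mem_image.mp hv
      have h1 := DFunLike.congr_fun (hvi i) a
      rw [Finsupp.add_apply, hone, Finsupp.smul_apply, smul_eq_mul] at h1
      have h2 := hw1 i a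
      have h3 : (p • w i - one ι) a = (p - 1) + p * (w i a - 1) := by
        have h4 : p * (w i a - 1) = p * w i a - p := by rw [Nat.mul_sub, mul_one]
        have h5 : p ≤ p * w i a := Nat.le_mul_of_pos_right p h2
        omega
      rw [h3, Nat.add_mul_mod_self_left, Nat.mod_eq_of_lt (by omega)]
    rw [h0, map_zero]

/-- Claim 4. -/
lemma claim4 (hC : S_CxMul) (p : ℕ) [Fact p.Prime] [CharP k p] (hp : p ≠ 0)
    (ω : ι → ℕ) (γ : k) (N : ℕ) (M : Matrix ι ι k) (Ψ : PowerSeries (LP ι k)) (w : ι →₀ ℕ) :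
    Lf (fun u => PowerSeries.expand p hp (PowerSeries.map (frobenius k p)
            (cx ((fun _ => -1) - zexp u) Ψ)) * PowerSeries.X ^ (p * ∑ i, ω i * u i))
          (tau γ N) (lin ((M.map (· ^ p)).map Polynomial.C)
            (MvPolynomial.monomial (w - one ι) 1)) =
      PowerSeries.expand p hp (PowerSeries.map (frobenius k p) (per ω M Ψ w)) := by
  have h1 : lin ((M.map (· ^ p)).map Polynomial.C)
      (MvPolynomial.monomial (w - one ι) (1 : Polynomial k)) =
      MvPolynomial.map Polynomial.C (MvPolynomial.map (frobenius k p)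
        (lin M (MvPolynomial.monomial (w - one ι) 1))) := by
    rw [map_lin, map_lin, MvPolynomial.map_monomial, MvPolynomial.map_monomial, RingHom.map_one,
      RingHom.map_one]
    rfl
  rw [h1, per_eq hC, Lf_eq _ _ _ (lin M (MvPolynomial.monomial (w - one ι) 1)).support
    ((MvPolynomial.support_map_subset _ _).trans (MvPolynomial.support_map_subset _ _)),
    map_sum, map_sum]
  refine sum_congr rfl fun v _ => ?_
  rw [MvPolynomial.coeff_map, MvPolynomial.coeff_map, tau_apply, Polynomial.C_comp,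
    Polynomial.coe_C, map_mul, map_mul, map_mul, map_mul, map_pow, map_pow, PowerSeries.map_X,
    PowerSeries.expand_X, PowerSeries.map_C, PowerSeries.expand_C, ← pow_mul]

end main

theorem star (hCart : S_Cart) (hF : S_FrobG) (hC : Pool.Agent.Q267.ST.S_CxMul) : S_Star := by
  intro ι J k _ _ _ _ _ p _ _ hp w hw hw1 m e he f hs M ω γ N Ψ g hΨ hg l
  have h1 : Ψ = Ψ ^ p * g ^ e := by
    have h2 : Ψ ^ p * g ^ e = Ψ * (Ψ ^ m * g) ^ e := by
      rw [mul_pow, ← pow_mul, ← he, pow_succ, mul_comm e m]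
      ring
    rw [h2, hΨ, one_pow, mul_one]
  have hne : (PowerSeries.X : PowerSeries k) ^ ((p - 1) * ∑ i, ω i) ≠ 0 :=
    pow_ne_zero _ PowerSeries.X_ne_zero
  apply mul_left_cancel₀ hne
  have h2 : PowerSeries.X ^ ((p - 1) * ∑ i, ω i) *
      (chart ω 0 0 M (MvPolynomial.monomial (w l - one ι) 1) * Ψ) =
      toL (scal ω γ N (lin (M.map Polynomial.C)
        (MvPolynomial.monomial (w l - one ι) 1 * f ^ e))) * Ψ ^ p := by
    have h3 : toL (scal ω γ N (lin (M.map Polynomial.C)
        (MvPolynomial.monomial (w l - one ι) 1 * f ^ e))) =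
        chart ω γ N M (MvPolynomial.monomial (w l - one ι) 1) * chart ω γ N M f ^ e := by
      rw [← map_pow, ← map_mul]
      rfl
    rw [h3, hg, chart_indep ω 0 γ 0 N]
    have h4 : (p - 1) * ∑ i, ω i = m * (∑ i, ω i) * e := by
      have : p - 1 = e * m := by omega
      rw [this]
      ring
    rw [h4, mul_pow, ← pow_mul]
    conv_lhs => rw [h1]
    ring
  have h3 := congrArg (cx (fun _ => -1)) h2
  rw [cx_X_pow_mul] at h3
  have h5 : PowerSeries.X ^ ((p - 1) * ∑ i, ω i) * per ω M Ψ (w l) =
      PowerSeries.X ^ ((p - 1) * ∑ i, ω i) * cx (fun _ => -1)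
        (chart ω 0 0 M (MvPolynomial.monomial (w l - one ι) 1) * Ψ) := rfl
  rw [h5, h3, claim1 hF hC p hp, show (M.map Polynomial.C : Matrix ι ι (Polynomial k)) =
    M.map (algebraMap k (Polynomial k)) from rfl, hCart ι k (Polynomial k) p M,
    claim3 p hp w hw hw1 e f l (hs l), Lf_C_mul, map_sum, Lf_sum]
  have h6 : tau γ N (algebraMap k (Polynomial k) (M.det ^ (p - 1))) =
      PowerSeries.C (M.det ^ (p - 1)) := by
    rw [← Polynomial.C_eq_algebraMap, tau_apply, Polynomial.C_comp, Polynomial.coe_C]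
  rw [h6]
  congr 2
  refine sum_congr rfl fun i _ => ?_
  have h7 : MvPolynomial.monomial (w i - one ι) (hm e p w f i l) =
      MvPolynomial.C (hm e p w f i l) * MvPolynomial.monomial (w i - one ι) 1 := by
    rw [MvPolynomial.C_mul_monomial, mul_one]
  rw [h7, map_mul, lin_C, Lf_C_mul, tau_apply]
  congr 1
  exact claim4 hC p hp ω γ N M Ψ (w i)

end Pool.Agent.Q174.AP
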